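import Pool.Agent.K1H9.RP.Stm

/-!
# Piece PSI of project RP: properties of `psi`
-/

open MeasureTheory Set

namespace Pool.Agent.K1H36.RP

noncomputable def w (b u : ℝ) : ℝ := Real.exp (-b * u ^ 2)

noncomputable def Fe (b c : ℝ) : ℝ := ∫ u : ℝ, |u + c| * w b u

noncomputable def Ee (b c : ℝ) : ℝ := ∫ u : ℝ, max |u| c * w b u

lemma w_int {b : ℝ} (hb : 0 < b) : Integrable (w b) := integrable_exp_neg_mul_sq hb

lemma w_pos (b u : ℝ) : 0 < w b u := Real.exp_pos _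

lemma w_cont (b : ℝ) : Continuous (w b) := by unfold w; fun_prop

lemma w_neg (b u : ℝ) : w b (-u) = w b u := by unfold w; simp

lemma w_le_one {b : ℝ} (hb : 0 < b) (u : ℝ) : w b u ≤ 1 := by
  unfold w
  rw [← Real.exp_zero]
  apply Real.exp_le_exp.mpr
  nlinarith [sq_nonneg u]

lemma absw_int {b : ℝ} (hb : 0 < b) : Integrable (fun u : ℝ => |u| * w b u) := by
  have h := (integrable_mul_exp_neg_mul_sq hb).abs
  refine h.congr (Filter.Eventually.of_forall fun u => ?_)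
  simp only [abs_mul, Real.abs_exp, w]

lemma int1 {b : ℝ} (hb : 0 < b) (c : ℝ) : Integrable (fun u : ℝ => |u + c| * w b u) := by
  refine Integrable.mono' ((absw_int hb).add ((w_int hb).const_mul |c|)) ?_ ?_
  · exact ((by fun_prop : Continuous fun u : ℝ => |u + c|).mul (w_cont b)).aestronglyMeasurable
  · refine Filter.Eventually.of_forall fun u => ?_
    rw [Real.norm_eq_abs, abs_mul, abs_abs, abs_of_pos (w_pos b u), Pi.add_apply, ← add_mul]
    exact mul_le_mul_of_nonneg_right (abs_add_le u c) (w_pos b u).le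

lemma int2 {b : ℝ} (hb : 0 < b) (c : ℝ) : Integrable (fun u : ℝ => max |u| c * w b u) := by
  refine Integrable.mono' ((absw_int hb).add ((w_int hb).const_mul |c|)) ?_ ?_
  · exact ((by fun_prop : Continuous fun u : ℝ => max |u| c).mul (w_cont b)).aestronglyMeasurable
  · refine Filter.Eventually.of_forall fun u => ?_
    rw [Real.norm_eq_abs, abs_mul, abs_of_pos (w_pos b u), Pi.add_apply, ← add_mul]
    refine mul_le_mul_of_nonneg_right ?_ (w_pos b u).le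
    rw [abs_le]
    constructor
    · have := abs_nonneg u
      have := abs_nonneg c
      have := le_max_left |u| c
      linarith
    · apply max_le
      · have := abs_nonneg c
        linarith
      · have := abs_nonneg u
        have := le_abs_self c
        linarith

lemma Fe_neg (b c : ℝ) : Fe b (-c) = Fe b c := by
  unfold Fe
  rw [← integral_neg_eq_self (fun u : ℝ => |u + c| * w b u) volume]
  congr 1
  ext u
  rw [w_neg, ← abs_neg (-u + c)]
  congr 2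
  ring

lemma avg (u c : ℝ) (hc : 0 ≤ c) : |u + c| + |u - c| = 2 * max |u| c := by
  rcases le_total 0 u with hu | hu
  · rw [abs_of_nonneg hu, abs_of_nonneg (add_nonneg hu hc)]
    rcases le_total u c with h | h
    · rw [max_eq_right h, abs_of_nonpos (by linarith)]; ring
    · rw [max_eq_left h, abs_of_nonneg (by linarith)]; ring
  · rw [abs_of_nonpos hu, abs_of_nonpos (by linarith : u - c ≤ 0)]
    rcases le_total (-u) c with h | h
    · rw [max_eq_right h, abs_of_nonneg (by linarith)]; ring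
    · rw [max_eq_left h, abs_of_nonpos (by linarith)]; ring

lemma Fe_eq {b : ℝ} (hb : 0 < b) {c : ℝ} (hc : 0 ≤ c) : Fe b c = Ee b c := by
  have h1 : Fe b c + Fe b (-c) = 2 * Ee b c := by
    unfold Fe Ee
    rw [← integral_add (int1 hb c) (int1 hb (-c)), ← integral_const_mul]
    congr 1
    ext u
    rw [← add_mul, ← sub_eq_add_neg, avg u c hc]
    ring
  rw [Fe_neg] at h1
  linarith

lemma E0 {b : ℝ} (hb : 0 < b) : ∫ u : ℝ, |u| * w b u = b⁻¹ := by
  have h1 : ∀ u : ℝ, |u| * w b u = (fun v : ℝ => v * Real.exp (-b * v ^ 2)) |u| := by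
    intro u
    simp only [sq_abs, w]
  rw [show (fun u : ℝ => |u| * w b u) = fun u => (fun v : ℝ => v * Real.exp (-b * v ^ 2)) |u| from
    funext h1]
  rw [integral_comp_abs (f := fun v : ℝ => v * Real.exp (-b * v ^ 2))]
  have A : ∀ x : ℝ, HasDerivAt (fun x => -(2 * b)⁻¹ * Real.exp (-b * x ^ 2))
      (x * Real.exp (-b * x ^ 2)) x := by
    intro x
    have := (((hasDerivAt_pow 2 x).const_mul (-b)).exp.const_mul (-(2 * b)⁻¹))
    refine this.congr_deriv ?_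
    have hb' : b ≠ 0 := hb.ne'
    simp only [Nat.cast_ofNat, Nat.add_one_sub_one, pow_one]
    field_simp
  have B : Filter.Tendsto (fun y : ℝ ↦ -(2 * b)⁻¹ * Real.exp (-b * y ^ 2))
      Filter.atTop (nhds (-(2 * b)⁻¹ * 0)) := by
    refine Filter.Tendsto.const_mul _ ?_
    exact Real.tendsto_exp_atBot.comp
      ((Filter.tendsto_pow_atTop two_ne_zero).const_mul_atTop_of_neg (neg_lt_zero.2 hb))
  rw [integral_Ioi_of_hasDerivAt_of_tendsto' (fun x _ => A x)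
      (integrable_mul_exp_neg_mul_sq hb).integrableOn B]
  have hb' : b ≠ 0 := hb.ne'
  simp
  field_simp

lemma Ee_ge {b : ℝ} (hb : 0 < b) (c : ℝ) : b⁻¹ ≤ Ee b c := by
  rw [← E0 hb]
  unfold Ee
  refine integral_mono (absw_int hb) (int2 hb c) fun u => ?_
  exact mul_le_mul_of_nonneg_right (le_max_left _ _) (w_pos b u).le

/-- the area computation -/
lemma area {c₁ c₂ : ℝ} (h0 : 0 ≤ c₁) (h12 : c₁ ≤ c₂) :
    ∫ u in (-c₂)..c₂, (c₂ - max |u| c₁) = c₂ ^ 2 - c₁ ^ 2 := by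
  have hc : Continuous fun u : ℝ => c₂ - max |u| c₁ := by fun_prop
  have i : ∀ a b : ℝ, IntervalIntegrable (fun u : ℝ => c₂ - max |u| c₁) volume a b :=
    fun a b => hc.intervalIntegrable a b
  rw [← intervalIntegral.integral_add_adjacent_intervals (i (-c₂) (-c₁)) (i (-c₁) c₂),
    ← intervalIntegral.integral_add_adjacent_intervals (i (-c₁) c₁) (i c₁ c₂)]
  have e1 : ∫ u in (-c₂)..(-c₁), (c₂ - max |u| c₁) = ∫ u in (-c₂)..(-c₁), (c₂ + u) := by
    apply intervalIntegral.integral_congr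
    intro u hu
    rw [uIcc_of_le (by linarith)] at hu
    obtain ⟨hu1, hu2⟩ := hu
    simp only
    rw [abs_of_nonpos (by linarith), max_eq_left (by linarith)]
    ring
  have e2 : ∫ u in (-c₁)..c₁, (c₂ - max |u| c₁) = ∫ u in (-c₁)..c₁, (c₂ - c₁) := by
    apply intervalIntegral.integral_congr
    intro u hu
    rw [uIcc_of_le (by linarith)] at hu
    obtain ⟨hu1, hu2⟩ := hu
    simp only
    rw [max_eq_right (abs_le.mpr ⟨hu1, hu2⟩)]
  have e3 : ∫ u in c₁..c₂, (c₂ - max |u| c₁) = ∫ u in c₁..c₂, (c₂ - u) := by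
    apply intervalIntegral.integral_congr
    intro u hu
    rw [uIcc_of_le (by linarith)] at hu
    obtain ⟨hu1, hu2⟩ := hu
    simp only
    rw [abs_of_nonneg (by linarith), max_eq_left (by linarith)]
  have e4 : ∫ u in (-c₂)..(-c₁), (c₂ + u) = (c₂ - c₁) ^ 2 / 2 := by
    rw [intervalIntegral.integral_add (by simp) (by simp)]
    simp only [intervalIntegral.integral_const, integral_id, smul_eq_mul]
    ring
  have e5 : ∫ u in c₁..c₂, (c₂ - u) = (c₂ - c₁) ^ 2 / 2 := by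
    rw [intervalIntegral.integral_sub (by simp) (by simp)]
    simp only [intervalIntegral.integral_const, integral_id, smul_eq_mul]
    ring
  rw [e1, e2, e3, e4, e5]
  simp only [intervalIntegral.integral_const, smul_eq_mul]
  ring

lemma Ee_diff {b : ℝ} (hb : 0 < b) {c₁ c₂ : ℝ} (h0 : 0 ≤ c₁) (h12 : c₁ ≤ c₂) :
    Ee b c₂ - Ee b c₁ ≤ c₂ ^ 2 - c₁ ^ 2 := by
  unfold Ee
  rw [← integral_sub (int2 hb c₂) (int2 hb c₁), ← area h0 h12,
    intervalIntegral.integral_of_le (by linarith), ← integral_Icc_eq_integral_Ioc,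
    ← integral_indicator measurableSet_Icc]
  have hc : Continuous fun u : ℝ => c₂ - max |u| c₁ := by fun_prop
  refine integral_mono ((int2 hb c₂).sub (int2 hb c₁)) ?_ fun u => ?_
  · exact (hc.integrableOn_Icc).integrable_indicator measurableSet_Icc
  · simp only
    rw [← sub_mul]
    by_cases hu : u ∈ Icc (-c₂) c₂
    · rw [indicator_of_mem hu]
      have hu' : |u| ≤ c₂ := abs_le.mpr hu
      rw [max_eq_right hu']
      have : 0 ≤ c₂ - max |u| c₁ := sub_nonneg.mpr (max_le hu' h12)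
      calc (c₂ - max |u| c₁) * w b u ≤ (c₂ - max |u| c₁) * 1 :=
            mul_le_mul_of_nonneg_left (w_le_one hb u) this
        _ = _ := mul_one _
    · rw [indicator_of_notMem hu]
      have hu' : c₂ < |u| := by
        by_contra h
        exact hu (abs_le.mp (not_lt.mp h))
      rw [max_eq_left hu'.le, max_eq_left (h12.trans hu'.le)]
      simp

lemma Fe_ratio {b : ℝ} (hb : 0 < b) {c₁ c₂ : ℝ} (h0 : 0 ≤ c₁) (h12 : c₁ ≤ c₂) :
    Fe b c₂ ≤ Fe b c₁ * Real.exp (b * (c₂ ^ 2 - c₁ ^ 2)) := by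
  rw [Fe_eq hb h0, Fe_eq hb (h0.trans h12)]
  have h1 := Ee_diff hb h0 h12
  have h2 := Ee_ge hb c₁
  have h3 : (0 : ℝ) < b⁻¹ := inv_pos.mpr hb
  have h4 : 0 ≤ c₂ ^ 2 - c₁ ^ 2 := by nlinarith
  have h5 := Real.add_one_le_exp (b * (c₂ ^ 2 - c₁ ^ 2))
  have h6 : (c₂ ^ 2 - c₁ ^ 2) ≤ Ee b c₁ * (b * (c₂ ^ 2 - c₁ ^ 2)) := by
    calc (c₂ ^ 2 - c₁ ^ 2) = b⁻¹ * (b * (c₂ ^ 2 - c₁ ^ 2)) := by
          field_simp
      _ ≤ Ee b c₁ * (b * (c₂ ^ 2 - c₁ ^ 2)) :=
          mul_le_mul_of_nonneg_right h2 (mul_nonneg hb.le h4)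
  calc Ee b c₂ ≤ Ee b c₁ + (c₂ ^ 2 - c₁ ^ 2) := by linarith
    _ ≤ Ee b c₁ + Ee b c₁ * (b * (c₂ ^ 2 - c₁ ^ 2)) := by linarith
    _ = Ee b c₁ * (b * (c₂ ^ 2 - c₁ ^ 2) + 1) := by ring
    _ ≤ Ee b c₁ * Real.exp (b * (c₂ ^ 2 - c₁ ^ 2)) :=
        mul_le_mul_of_nonneg_left h5 (h3.le.trans h2)

lemma Fe_pos {b : ℝ} (hb : 0 < b) (c : ℝ) : 0 < Fe b c := by
  have h3 : (0 : ℝ) < b⁻¹ := inv_pos.mpr hb
  rcases le_total 0 c with h | h
  · rw [Fe_eq hb h]
    exact h3.trans_le (Ee_ge hb c)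
  · rw [← Fe_neg, Fe_eq hb (neg_nonneg.mpr h)]
    exact h3.trans_le (Ee_ge hb _)

lemma Fe_cont {b : ℝ} (hb : 0 < b) : Continuous (Fe b) := by
  have hlip : LipschitzWith (Real.toNNReal (∫ u, w b u)) (Fe b) := by
    apply LipschitzWith.of_dist_le_mul
    intro x y
    rw [Real.dist_eq, Real.dist_eq, Real.coe_toNNReal _ (integral_nonneg fun u => (w_pos b u).le)]
    unfold Fe
    rw [← integral_sub (int1 hb x) (int1 hb y)]
    calc |∫ u, (|u + x| * w b u - |u + y| * w b u)| ≤ ∫ u, |(|u + x| * w b u - |u + y| * w b u)| :=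
          abs_integral_le_integral_abs
      _ ≤ ∫ u, w b u * |x - y| := by
          refine integral_mono ((int1 hb x).sub (int1 hb y)).abs ((w_int hb).mul_const _) fun u => ?_
          simp only
          rw [← sub_mul, abs_mul, abs_of_pos (w_pos b u), mul_comm]
          refine mul_le_mul_of_nonneg_left ?_ (w_pos b u).le
          refine (abs_abs_sub_abs_le _ _).trans (le_of_eq ?_)
          congr 1
          ring
      _ = _ := by rw [integral_mul_const]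
  exact hlip.continuous

lemma psi_eq (n : ℕ) (τ θ : ℝ) : Pool.Agent.K1H9.RP.psi n τ θ =
    Real.exp (-((n : ℝ) - 1) * θ ^ 2 / 2) * (Real.exp (-θ ^ 2 / (2 * (1 + τ ^ 2))) *
      Fe ((1 + τ ^ 2) / 2) (θ * τ / (1 + τ ^ 2))) := by
  unfold Pool.Agent.K1H9.RP.psi Fe
  congr 1
  have hA : (1 + τ ^ 2) ≠ 0 := by positivity
  rw [← integral_add_right_eq_self
    (fun η : ℝ => |η| * Real.exp (-η ^ 2 / 2 - (θ - τ * η) ^ 2 / 2)) (θ * τ / (1 + τ ^ 2)),
    ← integral_const_mul]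
  congr 1
  ext u
  unfold w
  rw [mul_left_comm, ← Real.exp_add]
  congr 2
  field_simp
  ring

theorem t_PSI : Pool.Agent.K1H9.RP.S_PSI := by
  intro n hn τ
  have hA : 0 < 1 + τ ^ 2 := by positivity
  have hb : 0 < (1 + τ ^ 2) / 2 := by positivity
  have hn' : (2 : ℝ) ≤ n := by exact_mod_cast hn
  have heq : Pool.Agent.K1H9.RP.psi n τ = fun θ => Real.exp (-((n : ℝ) - 1) * θ ^ 2 / 2) *
      (Real.exp (-θ ^ 2 / (2 * (1 + τ ^ 2))) *
      Fe ((1 + τ ^ 2) / 2) (θ * τ / (1 + τ ^ 2))) := by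
    ext θ
    exact psi_eq n τ θ
  refine ⟨?_, ?_, ?_, ?_⟩
  · rw [heq]
    have h1 : Continuous fun θ : ℝ => Fe ((1 + τ ^ 2) / 2) (θ * τ / (1 + τ ^ 2)) :=
      (Fe_cont hb).comp (by fun_prop)
    exact (by fun_prop : Continuous fun θ : ℝ => Real.exp (-((n : ℝ) - 1) * θ ^ 2 / 2)).mul
      ((by fun_prop : Continuous fun θ : ℝ => Real.exp (-θ ^ 2 / (2 * (1 + τ ^ 2)))).mul h1)
  · intro θ
    rw [psi_eq, psi_eq, neg_sq]
    have : -θ * τ / (1 + τ ^ 2) = -(θ * τ / (1 + τ ^ 2)) := by ring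
    rw [this, Fe_neg]
  · intro θ₁ h1 θ₂ h2 h12
    have h1' : 0 ≤ θ₁ := h1
    have h2' : 0 ≤ θ₂ := h2
    have hsgn : ∀ θ : ℝ, Fe ((1 + τ ^ 2) / 2) (θ * τ / (1 + τ ^ 2)) =
        Fe ((1 + τ ^ 2) / 2) (θ * |τ| / (1 + τ ^ 2)) := by
      intro θ
      rcases abs_cases τ with ⟨h, _⟩ | ⟨h, _⟩
      · rw [h]
      · rw [h, ← Fe_neg]
        congr 1
        ring
    rw [psi_eq, psi_eq, hsgn, hsgn]
    have hc1 : 0 ≤ θ₁ * |τ| / (1 + τ ^ 2) := by positivity
    have hc12 : θ₁ * |τ| / (1 + τ ^ 2) ≤ θ₂ * |τ| / (1 + τ ^ 2) := by gcongr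
    have hr := Fe_ratio hb hc1 hc12
    have hp := Fe_pos hb (θ₁ * |τ| / (1 + τ ^ 2))
    calc Real.exp (-((n : ℝ) - 1) * θ₂ ^ 2 / 2) * (Real.exp (-θ₂ ^ 2 / (2 * (1 + τ ^ 2))) *
          Fe ((1 + τ ^ 2) / 2) (θ₂ * |τ| / (1 + τ ^ 2)))
        ≤ Real.exp (-((n : ℝ) - 1) * θ₂ ^ 2 / 2) * (Real.exp (-θ₂ ^ 2 / (2 * (1 + τ ^ 2))) *
          (Fe ((1 + τ ^ 2) / 2) (θ₁ * |τ| / (1 + τ ^ 2)) *
            Real.exp ((1 + τ ^ 2) / 2 * ((θ₂ * |τ| / (1 + τ ^ 2)) ^ 2 -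
              (θ₁ * |τ| / (1 + τ ^ 2)) ^ 2)))) := by gcongr
      _ = Real.exp (-((n : ℝ) - 1) * θ₂ ^ 2 / 2 + -θ₂ ^ 2 / (2 * (1 + τ ^ 2)) +
            (1 + τ ^ 2) / 2 * ((θ₂ * |τ| / (1 + τ ^ 2)) ^ 2 -
              (θ₁ * |τ| / (1 + τ ^ 2)) ^ 2)) * Fe ((1 + τ ^ 2) / 2) (θ₁ * |τ| / (1 + τ ^ 2)) := by
          rw [Real.exp_add, Real.exp_add]
          ring
      _ < Real.exp (-((n : ℝ) - 1) * θ₁ ^ 2 / 2 + -θ₁ ^ 2 / (2 * (1 + τ ^ 2))) *
            Fe ((1 + τ ^ 2) / 2) (θ₁ * |τ| / (1 + τ ^ 2)) := by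
          refine mul_lt_mul_of_pos_right ?_ hp
          apply Real.exp_lt_exp.mpr
          have e : (-((n : ℝ) - 1) * θ₁ ^ 2 / 2 + -θ₁ ^ 2 / (2 * (1 + τ ^ 2))) -
              (-((n : ℝ) - 1) * θ₂ ^ 2 / 2 + -θ₂ ^ 2 / (2 * (1 + τ ^ 2)) +
            (1 + τ ^ 2) / 2 * ((θ₂ * |τ| / (1 + τ ^ 2)) ^ 2 -
              (θ₁ * |τ| / (1 + τ ^ 2)) ^ 2)) =
              (θ₂ ^ 2 - θ₁ ^ 2) / 2 * (((n : ℝ) - 2) + 2 / (1 + τ ^ 2)) := by
            have hA' : (1 + τ ^ 2) ≠ 0 := hA.ne'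
            rw [div_pow, div_pow, mul_pow, mul_pow, sq_abs]
            field_simp
            ring
          have h3 : 0 < (θ₂ ^ 2 - θ₁ ^ 2) / 2 * (((n : ℝ) - 2) + 2 / (1 + τ ^ 2)) := by
            have h4 : 0 < (θ₂ ^ 2 - θ₁ ^ 2) / 2 := by nlinarith
            have h5 : 0 < 2 / (1 + τ ^ 2) := by positivity
            exact mul_pos h4 (by linarith)
          linarith
      _ = _ := by
          rw [Real.exp_add]
          ring
  · intro θ
    rw [psi_eq]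
    have := Fe_pos hb (θ * τ / (1 + τ ^ 2))
    positivity

end Pool.Agent.K1H36.RP
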